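import Pool.Agent.P.MP_91c514_al.NA4

namespace Pool.Agent.Results.MP_91c514_al.NotAutomatic

open Pool.Agent.P.MP_91c514_al

/-- Thompson's group `F`, every group between `F` and `V`, and every subgroup of `V` with a
non-identity element supported in each cone, has no regular language of normal forms with the
(even asynchronous) fellow traveller property. -/
theorem result :
    ∃ x₀ x₁ : Equiv.Perm (Stream' Bool),
      (∀ w, x₀ (Stream'.cons false (Stream'.cons false w)) = Stream'.cons false w ∧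
        x₀ (Stream'.cons false (Stream'.cons true w)) = Stream'.cons true (Stream'.cons false w) ∧
        x₀ (Stream'.cons true w) = Stream'.cons true (Stream'.cons true w)) ∧
      (∀ w, x₁ (Stream'.cons false w) = Stream'.cons false w ∧
        x₁ (Stream'.cons true w) = Stream'.cons true (x₀ w)) ∧
      ∀ G : Subgroup (Equiv.Perm (Stream' Bool)),
        (G = Subgroup.closure {x₀, x₁} ∨
          ((∀ g ∈ G, ∃ d : ℕ, ∀ s : List Bool, s.length = d →
              ∃ s' : List Bool, ∀ w, g (Stream'.appendStream' s w) = Stream'.appendStream' s' w) ∧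
            ((x₀ ∈ G ∧ x₁ ∈ G) ∨ ∀ s : List Bool, ∃ g ∈ G, g ≠ 1 ∧
              ∀ w, (∀ w', w ≠ Stream'.appendStream' s w') → g w = w))) →
        ¬ ∃ (m : ℕ) (a : Fin m → G) (σ : Type) (_ : Fintype σ) (M : DFA (Fin m) σ) (k : ℕ),
          (∀ g : G, ∃ w ∈ M.accepts, (w.map a).prod = g) ∧
          (∀ u ∈ M.accepts, ∀ v ∈ M.accepts,
            ((u.map a).prod = (v.map a).prod ∨
              ∃ b : Fin m, (u.map a).prod * a b = (v.map a).prod) →
            ∃ φ ψ : ℕ → ℕ, Monotone φ ∧ Monotone ψ ∧ Function.Surjective φ ∧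
              Function.Surjective ψ ∧ ∀ t : ℕ, ∃ w : List (Fin m ⊕ Fin m), w.length ≤ k ∧
                ((u.take (φ t)).map a).prod * (w.map (Sum.elim a (fun i => (a i)⁻¹))).prod
                  = ((v.take (ψ t)).map a).prod) := by
  refine ⟨x0, x1, fun w => ⟨x0_00 w, x0_01 w, x0_1 w⟩, fun w => ⟨on_tf x0 w, on_same true x0 w⟩,
    ?_⟩
  rintro G (rfl | ⟨h1, ⟨h2, h3⟩ | h2⟩)
  · refine NA.not_aut_sub _ (fun g hg => ?_) NA.micro_FF
    obtain ⟨d, hd⟩ := NA.lin_FF hg
    exact ⟨d, fun s hs => hd s hs.ge⟩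
  · refine NA.not_aut_sub G h1 fun s => ?_
    obtain ⟨g, hg, h⟩ := NA.micro_FF s
    refine ⟨g, (Subgroup.closure_le G).2 ?_ hg, h⟩
    rintro x (rfl | rfl)
    exacts [h2, h3]
  · exact NA.not_aut_sub G h1 h2

end Pool.Agent.Results.MP_91c514_al.NotAutomatic
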