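import Pool.Agent.P.MP_91c514_al.Main
import Pool.Agent.P.MP_91c514_al.Top

namespace Pool.Agent.Results.MP_91c514_al.ThompsonCombable

open Pool.Agent.P.MP_91c514_al

/-- Thompson's group `F`, generated by the permutations `x₀`, `x₁` of the infinite binary
sequences, has a language of unique normal forms with the synchronous fellow traveller property,
and it has no properly discontinuous cell-permuting action on a contractible finite-dimensional
Hausdorff CW complex. -/
theorem result :
    ∃ x₀ x₁ : Equiv.Perm (Stream' Bool),
      (∀ w, x₀ (Stream'.cons false (Stream'.cons false w)) = Stream'.cons false w ∧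
        x₀ (Stream'.cons false (Stream'.cons true w)) = Stream'.cons true (Stream'.cons false w) ∧
        x₀ (Stream'.cons true w) = Stream'.cons true (Stream'.cons true w)) ∧
      (∀ w, x₁ (Stream'.cons false w) = Stream'.cons false w ∧
        x₁ (Stream'.cons true w) = Stream'.cons true (x₀ w)) ∧
      ∀ F : Subgroup (Equiv.Perm (Stream' Bool)), F = Subgroup.closure {x₀, x₁} →
        (∃ (m : ℕ) (a : Fin m → F) (L : Set (List (Fin m))) (k : ℕ),
          Submonoid.closure (Set.range a) = ⊤ ∧
          (∀ g : F, ∃! w, w ∈ L ∧ (w.map a).prod = g) ∧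
          (∀ u ∈ L, ∀ v ∈ L,
            ((u.map a).prod = (v.map a).prod ∨
              ∃ b : Fin m, (u.map a).prod * a b = (v.map a).prod) →
            ∀ t : ℕ, ∃ w : List (Fin m ⊕ Fin m), w.length ≤ k ∧
              ((u.take t).map a).prod * (w.map (Sum.elim a (fun i => (a i)⁻¹))).prod
                = ((v.take t).map a).prod)) ∧
        ¬ ∃ (X : Type) (_ : TopologicalSpace X) (_ : T2Space X)
          (_ : Topology.RelCWComplex (Set.univ : Set X) (∅ : Set X)) (_ : MulAction F X),
          Topology.RelCWComplex.FiniteDimensional (Set.univ : Set X) ∧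
          ContractibleSpace X ∧
          (∀ g : F, Continuous (fun x : X => g • x)) ∧
          ProperlyDiscontinuousSMul F X ∧
          (∀ (g : F) (n : ℕ)
            (i : Topology.RelCWComplex.cell (C := (Set.univ : Set X)) (D := (∅ : Set X)) n),
            ∃ j : Topology.RelCWComplex.cell (C := (Set.univ : Set X)) (D := (∅ : Set X)) n,
              (fun x : X => g • x) '' Topology.RelCWComplex.openCell n i
                = Topology.RelCWComplex.openCell n j) := by
  refine ⟨x0, x1, fun w => ⟨x0_00 w, x0_01 w, x0_1 w⟩, fun w => ⟨on_tf x0 w, on_same true x0 w⟩, ?_⟩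
  rintro F rfl
  obtain ⟨L, k, h1, h2, h3⟩ := combable
  refine ⟨⟨5, gen, L, k, gen_closure, fun g => ?_, h3⟩, no_action (G := FF) exists_zn⟩
  obtain ⟨w, hw, e⟩ := h1 g
  exact ⟨w, ⟨hw, e⟩, fun v hv => h2 v hv.1 w hw (hv.2.trans e.symm)⟩

end Pool.Agent.Results.MP_91c514_al.ThompsonCombable
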